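import Pool.Agent.Y166.CS.Stm2

/-!
# The isolated singular points are the points over the simple roots
-/

set_option autoImplicit false

namespace Pool.Agent.Y975.CS

open Polynomial Topology Filter
open Pool.Agent.Y166.CS
open Pool.Agent.Results.MP_c4712b_ag.ManyNodesFamily (Poly3 surf CoordRing IsSingularPt spt
  IsIsolatedSingularPt IsQuasihomogeneous)

theorem spt_zero (c : ℂ) : spt c 0 = c := rfl
theorem spt_one (c : ℂ) : spt c 1 = 0 := rfl
theorem spt_two (c : ℂ) : spt c 2 = 0 := rfl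

theorem eq_spt {a : Fin 3 → ℂ} {c : ℂ} (h0 : a 0 = c) (h1 : a 1 = 0) (h2 : a 2 = 0) :
    a = spt c := by
  funext i
  fin_cases i
  · exact h0
  · exact h1
  · exact h2

theorem done (hS : S_SING) : S_ISOL := by
  classical
  intro f hf k hk a
  constructor
  · intro hiso
    obtain ⟨hsing, U, hU, hUa⟩ := hiso
    obtain ⟨h0, h1, h2⟩ := (hS f k hk a).1 hsing
    have hd : f.derivative.eval (a 0) ≠ 0 := by
      intro hd
      have hcont : Continuous fun t : ℂ => (![a 0, 0, a 2 + t] : Fin 3 → ℂ) := by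
        refine continuous_pi fun i => ?_
        fin_cases i
        · exact continuous_const
        · exact continuous_const
        · exact continuous_const.add continuous_id
      have ha : (![a 0, 0, a 2 + 0] : Fin 3 → ℂ) = a := by
        funext i
        fin_cases i
        · rfl
        · exact h1.symm
        · exact add_zero _
      have hU' : ∀ᶠ t : ℂ in 𝓝 0, (![a 0, 0, a 2 + t] : Fin 3 → ℂ) ∈ U := by
        have h9 : U ∈ 𝓝 ((fun t : ℂ => (![a 0, 0, a 2 + t] : Fin 3 → ℂ)) 0) := by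
          change U ∈ 𝓝 (![a 0, 0, a 2 + 0] : Fin 3 → ℂ)
          rw [ha]
          exact hU
        exact hcont.continuousAt.preimage_mem_nhds h9
      have hU2 : ∀ᶠ t : ℂ in 𝓝[≠] 0, (![a 0, 0, a 2 + t] : Fin 3 → ℂ) ∈ U ∧ t ≠ 0 :=
        (hU'.filter_mono nhdsWithin_le_nhds).and eventually_mem_nhdsWithin
      obtain ⟨t, ht, ht0⟩ := hU2.exists
      have h3 : IsSingularPt (surf f k) (![a 0, 0, a 2 + t] : Fin 3 → ℂ) := by
        refine (hS f k hk _).2 ⟨h0, rfl, ?_⟩
        change f.derivative.eval (a 0) * (a 2 + t) = 0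
        rw [hd, zero_mul]
      refine hUa _ ht (fun h4 => ?_) h3
      have h5 : a 2 + t = a 2 := congrFun h4 2
      exact ht0 (by linear_combination h5)
    refine ⟨a 0, h0, hd, eq_spt rfl h1 ?_⟩
    exact (mul_eq_zero.1 h2).resolve_left hd
  · rintro ⟨c, hc, hd, rfl⟩
    have hsing : IsSingularPt (surf f k) (spt c) := by
      refine (hS f k hk _).2 ⟨hc, rfl, ?_⟩
      rw [spt_two, mul_zero]
    refine ⟨hsing, {b | b 0 = c ∨ f.eval (b 0) ≠ 0}, ?_, ?_⟩
    · have hfin : {x : ℂ | f.eval x = 0 ∧ x ≠ c}.Finite :=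
        (f.roots.toFinset.finite_toSet).subset fun x hx => by
          rw [Finset.mem_coe, Multiset.mem_toFinset, mem_roots hf]
          exact hx.1
      have hopen : IsOpen ({x : ℂ | f.eval x = 0 ∧ x ≠ c}ᶜ) := hfin.isClosed.isOpen_compl
      have hmem : c ∈ ({x : ℂ | f.eval x = 0 ∧ x ≠ c}ᶜ) := fun h => h.2 rfl
      have h1 : (fun b : Fin 3 → ℂ => b 0) ⁻¹' ({x : ℂ | f.eval x = 0 ∧ x ≠ c}ᶜ) ∈ 𝓝 (spt c) :=
        (continuous_apply 0).continuousAt.preimage_mem_nhds (hopen.mem_nhds hmem)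
      refine Filter.mem_of_superset h1 fun b hb => ?_
      by_cases hbc : b 0 = c
      · exact Or.inl hbc
      · exact Or.inr fun h => hb ⟨h, hbc⟩
    · intro b hb hba hbs
      obtain ⟨h0, h1, h2⟩ := (hS f k hk b).1 hbs
      rcases hb with hb | hb
      · refine hba (eq_spt hb h1 ?_)
        rw [hb] at h2
        exact (mul_eq_zero.1 h2).resolve_left hd
      · exact absurd h0 hb

end Pool.Agent.Y975.CS
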